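import Pool.Agent.H1.NVP.EMS
import Pool.Agent.H1.NVP.REA
import Pool.Agent.H1.NVP.RSF
import Pool.Agent.H5.NVP.CUB
import Pool.Agent.H20.NVP.EMP
import Pool.Agent.H21.NVP.DET
import Pool.Agent.H22.NVP.CNT
import Pool.Agent.H22.NVP.SHE
import Pool.Agent.H22.NVP.UCO
import Pool.Agent.H24.NVP.PE1
import Pool.Agent.H26.NVP.WTB
import Pool.Agent.H34.NVP.ISM
import Pool.Agent.H35.NVP.PUN
import Pool.Agent.H38.NVP.EMZ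
import Pool.Agent.H45.NVP.AFS
import Pool.Agent.H46.NVP.TAD
import Pool.Agent.H49.NVP.GDB
import Pool.Agent.H58.NVP.CTM
import Pool.Agent.H61.NVP.GAV
import Pool.Agent.H65.NVP.INN
import Pool.Agent.H66.NVP.LCU
import Pool.Agent.H66.NVP.PSC
import Pool.Agent.H66.NVP.PSQ
import Pool.Agent.H68.NVP.EMV
import Pool.Agent.H70.NVP.XCH
import Pool.Agent.H71.NVP.NWB
import Pool.Agent.H78.NVP.NFD
import Pool.Agent.H83.NVP.AVS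
import Pool.Agent.H83.NVP.DRV
import Pool.Agent.H93.NVP.PU0
import Pool.Agent.H33.CM4.BAL
import Pool.Agent.H34.CM4.IDC
import Pool.Agent.H65.CM4.MKI
import Pool.Agent.H98.CM4.EMB

/-!
# Averages over the discriminants: assembly of the part P
-/

set_option autoImplicit false

open NumberField
open Pool.Agent.H65.CM4 Pool.Agent.H61.NVK Pool.Agent.H89.NV

namespace Pool.Agent.H65.NV

variable (k : Type) [Field k] [NumberField k] [IsTotallyReal k]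

theorem p_EMB : T_EMB k := Pool.Agent.H98.CM4.pf_EMB k

theorem p_BAL : T_BAL k := Pool.Agent.H33.CM4.pf_BAL k (p_EMB k)

theorem p_IDC : T_IDC k := Pool.Agent.H34.CM4.pf_IDC k (p_EMB k)

theorem p_MKI : T_MKI k := Pool.Agent.H65.CM4.pf_MKI k (p_EMB k)

theorem p_PE1 : T_PE1 := Pool.Agent.H24.NVP_PE1.pf_PE1

theorem p_CUB : T_CUB := Pool.Agent.H5.NVP_CUB.pf_CUB

theorem p_EMZ : T_EMZ := Pool.Agent.H38.NVP_EMZ.pf_EMZ p_PE1 p_CUB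

theorem p_EMS : T_EMS k := Pool.Agent.H1.NVP_EMS.pf_EMS k (p_EMB k)

theorem p_RSF (hRSB : T_RSB k) : T_RSF k := Pool.Agent.H1.NVP_RSF.pf_RSF k hRSB

theorem p_LCU : T_LCU k := Pool.Agent.H66.NVP_LCU.pf_LCU k (p_EMB k) (p_EMS k)

theorem p_SHE : T_SHE k := Pool.Agent.H22.NVP_SHE.pf_SHE k (p_EMB k) (p_MKI k) (p_BAL k)

theorem p_DET : T_DET k := Pool.Agent.H21.NVP_DET.pf_DET k (p_EMB k) (p_EMS k)

theorem p_EMV (hRSB : T_RSB k) : T_EMV k :=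
  Pool.Agent.H68.NVP_EMV.pf_EMV k p_EMZ (p_EMS k) (p_RSF k hRSB) (p_LCU k) (p_SHE k) (p_DET k)
    (p_EMB k)

theorem p_EMP (hRSB : T_RSB k) : T_EMP k :=
  Pool.Agent.H20.NVP_EMP.pf_EMP k (p_EMV k hRSB) (p_EMS k) (p_RSF k hRSB) (p_LCU k) (p_EMB k)

theorem p_GDB (hLND : T_LND) : T_GDB k := Pool.Agent.H49.NVP_GDB.pf_GDB k hLND

theorem p_DRV (hDER : T_DER) (hZCB : T_ZCB) (hVKF : T_VKF) : T_DRV k :=
  Pool.Agent.H83.NVP_DRV.pf_DRV k hDER hZCB hVKF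

theorem p_PSC (hVKF : T_VKF) : T_PSC k := Pool.Agent.H66.NVP_PSC.pf_PSC k hVKF

theorem p_REA (hRSB : T_RSB k) : T_REA k := Pool.Agent.H1.NVP_REA.pf_REA k hRSB (p_EMS k)

theorem p_GAV (hRSB : T_RSB k) (hBSU : T_BSU) : T_GAV k :=
  Pool.Agent.H61.NVP_GAV.pf_GAV k (p_EMP k hRSB) (p_REA k hRSB) (p_RSF k hRSB) (p_EMS k)
    (p_LCU k) hBSU (p_EMB k)

theorem p_NWB (hRSB : T_RSB k) (hIDL : T_IDL k) : T_NWB k :=
  Pool.Agent.H71.NVP_NWB.pf_NWB k (p_RSF k hRSB) hIDL (p_EMS k)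

theorem p_WTB (hRSB : T_RSB k) : T_WTB k :=
  Pool.Agent.H26.NVP_WTB.pf_WTB k (p_RSF k hRSB) (p_EMS k)

theorem p_ISM : T_ISM k := Pool.Agent.H34.NVP_ISM.pf_ISM k

theorem p_CTM (hVKF : T_VKF) : T_CTM k :=
  Pool.Agent.H58.NVP_CTM.pf_CTM k (p_LCU k) hVKF (p_EMS k) (p_EMB k)

theorem p_PSQ : T_PSQ k := Pool.Agent.H66.NVP_PSQ.pf_PSQ k (p_IDC k)

theorem p_UCO : T_UCO k := Pool.Agent.H22.NVP_UCO.pf_UCO k (p_BAL k) (p_LCU k) (p_EMS k)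

theorem p_PU0 : T_PU0 k := Pool.Agent.H93.NVP_PU0.pf_PU0 k (p_EMB k)

/-- (PUN) -/
theorem p_PUN : Pool.Agent.H89.NV.T_PUN k :=
  Pool.Agent.H35.NVP_PUN.pf_PUN k (p_UCO k) (p_PU0 k) (p_EMS k)

/-- (CNT) -/
theorem p_CNT (hRSB : T_RSB k) (hLND : T_LND) : Pool.Agent.H89.NV.T_CNT k :=
  Pool.Agent.H22.NVP_CNT.pf_CNT k (p_EMP k hRSB) (p_GDB k hLND) (p_EMB k)

/-- (NFD) -/
theorem p_NFD (hLND : T_LND) : Pool.Agent.H89.NV.T_NFD k :=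
  Pool.Agent.H78.NVP_NFD.pf_NFD k (p_LCU k) (p_PSQ k) (p_GDB k hLND) (p_EMS k) (p_EMB k)

/-- (AFM) -/
theorem p_AFM (hRSB : T_RSB k) (hLND : T_LND) (hDER : T_DER) (hZCB : T_ZCB) (hVKF : T_VKF)
    (hBSU : T_BSU) : Pool.Agent.H89.NV.T_AFM k :=
  Pool.Agent.H45.NVP_AFS.pf_AFS k (p_GDB k hLND) (p_EMB k) (p_EMS k) (p_RSF k hRSB)
    (p_GAV k hRSB hBSU) (p_DRV k hDER hZCB hVKF) (p_WTB k hRSB)

theorem p_INN (hRSB : T_RSB k) (hIDL : T_IDL k) (hDER : T_DER) (hZCB : T_ZCB) (hVKF : T_VKF)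
    (hBSU : T_BSU) (hLC : T_LC k) (hLB : T_LB k) : T_INN k :=
  Pool.Agent.H65.NVP_INN.pf_INN k (p_GAV k hRSB hBSU) (p_DRV k hDER hZCB hVKF) (p_PSC k hVKF)
    hLC hLB (p_NWB k hRSB hIDL) (p_WTB k hRSB) (p_EMB k) hIDL

theorem p_TAD (hRSB : T_RSB k) (hIDL : T_IDL k) (hDER : T_DER) (hZCB : T_ZCB) (hVKF : T_VKF) :
    T_TAD k :=
  Pool.Agent.H46.NVP_TAD.pf_TAD k (p_DRV k hDER hZCB hVKF) hVKF (p_NWB k hRSB hIDL)
    (p_WTB k hRSB) (p_RSF k hRSB) (p_EMS k) hIDL (p_EMB k)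

/-- (AVG) -/
theorem p_AVG (hRSB : T_RSB k) (hIDL : T_IDL k) (hDER : T_DER) (hZCB : T_ZCB) (hVKF : T_VKF)
    (hBSU : T_BSU) (hLC : T_LC k) (hLB : T_LB k) : Pool.Agent.H89.NV.T_AVG k :=
  Pool.Agent.H83.NVP_AVS.pf_AVS k (p_EMB k) (p_INN k hRSB hIDL hDER hZCB hVKF hBSU hLC hLB)
    (p_TAD k hRSB hIDL hDER hZCB hVKF) (p_CTM k hVKF) (p_ISM k)
    (Pool.Agent.H70.NVP_XCH.pf_XCH k (p_TAD k hRSB hIDL hDER hZCB hVKF) (p_CTM k hVKF) (p_ISM k))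

end Pool.Agent.H65.NV
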