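import Pool.Agent.H65.NV.AsmL
import Pool.Agent.H65.NV.AsmP
import Pool.Agent.H61.NVK.AsmE
import Pool.Agent.H61.NVE.VCK
import Pool.Agent.H89.NVK.AsmU
import Pool.Agent.H23.NVK.AsmN

/-!
# The two moments over a totally real field, everything together

All interface statements of `H89/NV/Iface.lean` that part A uses, without hypotheses.
-/

set_option autoImplicit false

open NumberField
open Pool.Agent.H65.CM4 Pool.Agent.H61.NVK Pool.Agent.H89.NV

namespace Pool.Agent.H65.NV.All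

variable (k : Type) [Field k] [NumberField k] [IsTotallyReal k]

theorem u : Pool.Agent.H89.NVK.ResU k := Pool.Agent.H89.NVK.partU e_EBD e_ZFE e_VKF k

theorem l : ResL k :=
  partL k e_ZPR (u k).rsb (u k).idl (u k).bmd (u k).trv (u k).fib (u k).pz1 (p_EMS k)

theorem c_UNF : T_UNF k := (u k).unf

theorem c_AUT : T_AUT k := (u k).aut

theorem c_EPS : Pool.Agent.H89.NV.T_EPS k := i_EPS k

theorem c_AVG : T_AVG k :=
  p_AVG k (u k).rsb (u k).idl e_DER e_ZCB e_VKF e_BSU (l k).lc (l k).lb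

theorem c_AFM : T_AFM k := p_AFM k (u k).rsb e_LND e_DER e_ZCB e_VKF e_BSU

theorem c_CNT : Pool.Agent.H89.NV.T_CNT k := p_CNT k (u k).rsb e_LND

theorem c_NFD : T_NFD k := p_NFD k e_LND

theorem c_PUN : T_PUN k := p_PUN k

theorem c_VCK : Pool.Agent.H23.NVK.T_VCK := Pool.Agent.H61.NVE_VCK.pf_VCK e_VKF

theorem c_MF : T_SM2 k ∧ T_FM1 k ∧ T_CRR k :=
  Pool.Agent.H23.NVK.Asm.part_MF c_VCK (fun k _ _ _ => (l k).nel) k (c_AVG k) (c_AFM k)
    (l k).wdn (l k).ufc (l k).fmc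

theorem c_SM2 : T_SM2 k := (c_MF k).1

theorem c_FM1 : T_FM1 k := (c_MF k).2.1

theorem c_CRR : T_CRR k := (c_MF k).2.2

end Pool.Agent.H65.NV.All
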