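import Pool.Agent.H89.NV.TU
import Pool.Agent.H61.NVK.TargetsE2
import Pool.Agent.H61.NVK.TargetsE3
import Pool.Agent.H65.CM4.Targets1

/-!
# Averages over the discriminants: targets (board nvk_modules, letters P_..)

Group 1: sums of smooth functions over ideals. Group 2: the averages over the discriminants.
Group 3: counting, non-fundamental discriminants. Group 4: partition of unity for the units.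
-/

set_option autoImplicit false

open MeasureTheory Set Filter NumberField NumberField.InfinitePlace
open scoped Real

namespace Pool.Agent.H65.NV

open Pool.Agent.H65.CM4 Pool.Agent.H61.NVK Pool.Agent.H89.NV

/-! ### Group 1 -/

/-- (PE1) a periodic function of one variable is close to its mean. -/
def T_PE1 : Prop :=
  ∀ (m : ℕ) (g : ℝ → ℝ) (L : ℝ), 1 ≤ m → ContDiff ℝ m g → (∀ x, g (x + 1) = g x) →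
    (∀ x, |iteratedDeriv m g x| ≤ L) → |g 0 - ∫ x in (0 : ℝ)..1, g x| ≤ L

/-- (CUB) from the averages in each direction to the average over the cube. -/
def T_CUB : Prop :=
  ∀ (ι : Type) [Fintype ι] [DecidableEq ι] (F : (ι → ℝ) → ℝ) (E : ℝ), Continuous F →
    (∀ (y : ι → ℝ) (j : ι), |F y - ∫ s in (0 : ℝ)..1, F (y + s • Pi.single j (1 : ℝ))| ≤ E) →
    ∀ y : ι → ℝ, |F y - ∫ t in Icc (0 : ι → ℝ) 1, F (y + t)| ≤ Fintype.card ι * E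

/-- (EMZ) sums of smooth functions over the integral points. -/
def T_EMZ : Prop :=
  ∀ (ι : Type) [Fintype ι] [DecidableEq ι] (m N : ℕ) (g : (ι → ℝ) → ℝ) (K : Set (ι → ℝ))
    (L : ℝ), 1 ≤ m → 0 ≤ L → Continuous g → IsCompact K → (∀ t, t ∉ K → g t = 0) →
    (∀ (t : ι → ℝ) (s : Finset (ι → ℤ)), (∀ z ∈ s, (fun i => t i + z i) ∈ K) → s.card ≤ N) →
    (∀ (t : ι → ℝ) (j : ι), ContDiff ℝ m (fun s : ℝ => g (t + s • Pi.single j (1 : ℝ))) ∧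
      |iteratedDeriv m (fun s : ℝ => g (t + s • Pi.single j (1 : ℝ))) 0| ≤ L) →
    |(∑' z : ι → ℤ, g (fun i => (z i : ℝ))) - ∫ t, g t| ≤ Fintype.card ι * (N * L)

section

variable {k : Type} [Field k] [NumberField k]

/-- `φ` is continuous and its derivatives of order `m` along lines are bounded by `L` -/
structure DB (m : ℕ) (L : ℝ) (φ : (Pl k → ℝ) → ℝ) : Prop where
  cont : Continuous φ
  sm : ∀ p e : Pl k → ℝ, (∀ v, |e v| ≤ 1) → ContDiff ℝ m (fun s : ℝ => φ (p + s • e))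
  bd : ∀ p e : Pl k → ℝ, (∀ v, |e v| ≤ 1) →
    |iteratedDeriv m (fun s : ℝ => φ (p + s • e)) 0| ≤ L

end

section

variable (k : Type) [Field k] [NumberField k] [IsTotallyReal k]

/-- (EMS) elementary facts on the embedding. -/
def T_EMS : Prop :=
  (∀ x y : 𝓞 k, em (x + y) = em x + em y ∧ em (x * y) = em x * em y ∧ em (-x) = -em x ∧
    em (x - y) = em x - em y) ∧ em (0 : 𝓞 k) = 0 ∧ em (1 : 𝓞 k) = 1 ∧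
  (∀ n : ℕ, em (n : 𝓞 k) = fun _ => (n : ℝ)) ∧
  Function.Injective (em : 𝓞 k → Pl k → ℝ) ∧
  (∀ (x : 𝓞 k) (v : Pl k), x ≠ 0 → em x v ≠ 0) ∧
  (∀ x : 𝓞 k, nm (Ideal.span {x}) = ∏ v, |em x v|) ∧
  (∀ (I : Ideal (𝓞 k)) (x : 𝓞 k), x ∈ I → x ≠ 0 → nm I ≤ ∏ v, |em x v|) ∧
  (∀ n : ℕ, nm (ni k n) = (n : ℝ) ^ dg k) ∧ nm (⊤ : Ideal (𝓞 k)) = 1 ∧
  (∀ (n : ℕ) (I : Ideal (𝓞 k)) (x : 𝓞 k), x ∈ ni k n * I ↔ ∃ y ∈ I, x = (n : 𝓞 k) * y)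

/-- (RSF) representatives modulo an ideal, inside an ideal. -/
def T_RSF : Prop :=
  ∀ (J Λ : Ideal (𝓞 k)), J ≠ ⊥ → Λ ≠ ⊥ → ∀ R : Finset (𝓞 k),
    (∀ x, x ∈ R ↔ x ∈ Rs (J * Λ) ∧ x ∈ Λ) →
    (∀ x ∈ Λ, ∃! r, r ∈ R ∧ x - r ∈ J * Λ) ∧ (R.card : ℝ) = nm J ∧
    (∀ (g : 𝓞 k → ℝ), (∀ x ∈ Λ, ∀ y ∈ J * Λ, g (x + y) = g x) →
      (∀ z ∈ Λ, ∑ x ∈ R, g (x + z) = ∑ x ∈ R, g x) ∧
      ∀ (J' : Ideal (𝓞 k)) (R' : Finset (𝓞 k)), J' ≠ ⊥ →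
        (∀ x, x ∈ R' ↔ x ∈ Rs ((J' * J) * Λ) ∧ x ∈ Λ) → ∑ x ∈ R', g x = nm J' * ∑ x ∈ R, g x)

/-- (LCU) upper bound for the number of the points of an ideal in a cube. -/
def T_LCU : Prop :=
  ∀ (I : Ideal (𝓞 k)) (β : Pl k → ℝ) (B : ℝ), I ≠ ⊥ → 0 ≤ B →
    {x : 𝓞 k | x ∈ I ∧ ∀ v, |em x v - β v| ≤ B}.Finite ∧
    ({x : 𝓞 k | x ∈ I ∧ ∀ v, |em x v - β v| ≤ B}.ncard : ℝ) ≤
      (2 * B / nm I ^ (1 / (dg k : ℝ)) + 2) ^ dg k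

/-- (SHE) a short element of an ideal. -/
def T_SHE : Prop :=
  ∃ C : ℝ, 1 ≤ C ∧ ∀ I : Ideal (𝓞 k), I ≠ ⊥ → ∃ x ∈ I, x ≠ 0 ∧
    ∀ v, |em x v| ≤ C * nm I ^ (1 / (dg k : ℝ))

/-- (DET) the change of variables to an integral basis of a principal ideal. -/
def T_DET : Prop :=
  ∃ (ι : Type) (_ : Fintype ι) (_ : DecidableEq ι) (ω : ι → 𝓞 k) (C : ℝ), 1 ≤ C ∧
    (∀ i v, |em (ω i) v| ≤ C) ∧
    ∀ x : 𝓞 k, x ≠ 0 →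
      (∀ y : 𝓞 k, y ∈ Ideal.span {x} → ∃! z : ι → ℤ, y = ∑ i, (z i : 𝓞 k) * (x * ω i)) ∧
      (∀ (p : Pl k → ℝ) (B : ℝ),
        IsCompact {t : ι → ℝ | ∀ v, |p v + ∑ i, t i * em (x * ω i) v| ≤ B}) ∧
      ∀ (φ : (Pl k → ℝ) → ℝ) (p : Pl k → ℝ),
        ∫ t : ι → ℝ, φ (p + ∑ i, t i • em (x * ω i)) =
          (1 / (Real.sqrt (dk k) * nm (Ideal.span {x}))) * ∫ u, φ u

open Classical in
/-- (EMV) sums of smooth functions over an ideal. -/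
def T_EMV : Prop :=
  ∀ m : ℕ, 1 ≤ m → ∃ C : ℝ, 0 < C ∧ ∀ (I : Ideal (𝓞 k)) (φ : (Pl k → ℝ) → ℝ) (a β : Pl k → ℝ)
    (B L : ℝ), I ≠ ⊥ → 0 ≤ B → 0 ≤ L → (∀ u, (∃ v, B < |u v - a v|) → φ u = 0) → DB m L φ →
    |(∑' x : 𝓞 k, if x ∈ I then φ (em x + β) else 0) -
      (1 / (Real.sqrt (dk k) * nm I)) * ∫ u, φ u| ≤
      C * nm I ^ ((m : ℝ) / dg k) * (1 + B) ^ dg k * L

open Classical in
/-- (EMP) sums of smooth functions over an ideal with a periodic weight. -/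
def T_EMP : Prop :=
  ∀ m h : ℕ, 1 ≤ m → 1 ≤ h → ∃ C : ℝ, 0 < C ∧ ∀ (Λ J : Ideal (𝓞 k)) (W : 𝓞 k → ℝ)
    (φ : (Pl k → ℝ) → ℝ) (a β : Pl k → ℝ) (B L M : ℝ), Λ ≠ ⊥ → J ≠ ⊥ → 0 ≤ B → 0 ≤ L →
    (∀ u, (∃ v, B < |u v - a v|) → φ u = 0) → DB m L φ →
    (∀ x ∈ Λ, |W x| ≤ M) → (∀ x ∈ Λ, ∀ y ∈ J * Λ, W (x + y) = W x) →
    |(∑' x : 𝓞 k, if x ∈ Λ then W x * φ ((h : ℝ) • em x + β) else 0) -
      (1 / (Real.sqrt (dk k) * (h : ℝ) ^ dg k * nm Λ)) *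
        ((∑ x ∈ (Rs (J * Λ)).filter (fun x => x ∈ Λ), W x) / nm J) * ∫ u, φ u| ≤
      C * M * nm J * nm (J * Λ) ^ ((m : ℝ) / dg k) * (1 + B) ^ dg k * L

/-! ### Group 2 -/

/-- (GDB) the scaled weight functions. -/
def T_GDB : Prop :=
  ∀ (G : (Pl k → ℝ) → ℝ) (η : ℝ), GW η G → (∃ C : ℝ, ∀ u, |G u| ≤ C) ∧
    ∀ m : ℕ, ∃ C : ℝ, 0 < C ∧ ∀ T : ℝ, 1 ≤ T → DB m (C / T ^ m) (fun d => G (fun v => d v / T))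

/-- (PSC) the weight functions with the cut-off function. -/
def T_PSC : Prop :=
  ∀ (G : (Pl k → ℝ) → ℝ) (η : ℝ), GW η G → ∃ C : ℝ, 0 < C ∧ ∀ T x : ℝ, 1 ≤ T → 0 < x →
    Continuous (fun d : Pl k → ℝ => G (fun v => d v / T) * Vk k (x / sD d)) ∧
    ∀ d : Pl k → ℝ, |G (fun v => d v / T) * Vk k (x / sD d)| ≤ C

/-- (DRV) the functions of the discriminant. -/
def T_DRV : Prop :=
  ∀ (f : Ideal (𝓞 k)) (G : (Pl k → ℝ) → ℝ) (η : ℝ), f ≠ ⊥ → GW η G →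
    ∃ j : ℕ, ∀ m B : ℕ, ∃ C : ℝ, 0 < C ∧ ∀ (A : Ideal (𝓞 k)) (b : Pl k → ℝ) (T x : ℝ),
      A ≠ ⊥ → 1 ≤ T → 0 < x →
      DB m (C * (nm A + T) ^ j / T ^ m) (fun d => G (fun v => d v / T) * zf A f b d) ∧
      DB m (C * (nm A + T) ^ j / T ^ m * (1 + x / T ^ ((dg k : ℝ) / 2)) ^ (-(B : ℝ)))
        (fun d => G (fun v => d v / T) * (Vk k (x / sD d) * zf A f b d))

open Classical in
/-- (REA) rearrangement: the discriminant in terms of the last coefficient. -/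
def T_REA : Prop :=
  ∀ (f A : Ideal (𝓞 k)) (Z : 𝓞 k → 𝓞 k → 𝓞 k → ℝ) (s : Finset (𝓞 k)), f ≠ ⊥ → A ≠ ⊥ →
    (∀ D b c, D ∉ s → Z D b c = 0) →
    (∑' D : 𝓞 k, ∑ b ∈ bs f A D, Z D b (q4 (b ^ 2 + D))) =
      ∑ b ∈ (Rs (ni k 2 * (A * f))).filter (fun b => b ∈ f),
        ∑' c : 𝓞 k, if c ∈ A * f ^ 2 then Z (4 * c - b ^ 2) b c else 0

open Classical in
/-- (GAV) the average over the discriminant, one ideal `A`. -/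
def T_GAV : Prop :=
  ∀ (f : Ideal (𝓞 k)) (η : ℝ) (m : ℕ), f ≠ ⊥ → 0 < η → 1 ≤ m →
    ∃ (C c : ℝ) (j : ℕ), 0 < C ∧ 0 < c ∧
    ∀ (A J h : Ideal (𝓞 k)) (X : 𝓞 k → 𝓞 k → ℝ) (ψ : (Pl k → ℝ) → ℝ) (T M L S : ℝ),
      A ≠ ⊥ → J ≠ ⊥ → h ≠ ⊥ → 1 ≤ T → 0 ≤ L → Continuous ψ → (∀ u, |ψ u| ≤ S) →
      (∀ u, (∃ v, u v ∉ Icc (η * T) (T / η)) → ψ u = 0) →
      (∀ b ∈ f, ∀ c ∈ A * f ^ 2, |X b c| ≤ M) →
      (∀ b ∈ f, ∀ c ∈ A * f ^ 2, ∀ y ∈ J * (A * f ^ 2), X b (c + y) = X b c) →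
      (∀ b ∈ f, ∀ z ∈ ni k 2 * (A * f),
        ∑ c ∈ (Rs (J * (A * f ^ 2))).filter (fun c => c ∈ A * f ^ 2), X (b + z) c =
          ∑ c ∈ (Rs (J * (A * f ^ 2))).filter (fun c => c ∈ A * f ^ 2), X b c) →
      (∀ b ∈ f, ∀ z ∈ h * f,
        ∑ c ∈ (Rs (J * (A * f ^ 2))).filter (fun c => c ∈ A * f ^ 2), X (b + z) c =
          ∑ c ∈ (Rs (J * (A * f ^ 2))).filter (fun c => c ∈ A * f ^ 2), X b c) →
      (∀ b ∈ f, DB m L (fun d => ψ d * zf A f (em b) d)) →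
      |(∑' D : 𝓞 k, ∑ b ∈ bs f A D, ψ (em D) * (X b (q4 (b ^ 2 + D)) * zf A f (em b) (em D))) -
        kf f / 2 ^ dg k *
          ((∑ b ∈ (Rs (ni k 2 * (A * f))).filter (fun b => b ∈ f),
            ∑ c ∈ (Rs (J * (A * f ^ 2))).filter (fun c => c ∈ A * f ^ 2), X b c) /
              (2 ^ dg k * nm A * nm J)) * ∫ d, ψ d * ct A f d| ≤
        C * M * T ^ dg k * (nm A * nm J * nm (J * A) ^ ((m : ℝ) / dg k) * L +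
          S * (nm A + T) ^ j *
            Real.exp (-(c * (T ^ ((dg k : ℝ) / 2) / nm h) ^ (1 / (dg k : ℝ)))))

open Classical in
/-- the averaged local weight over the last coefficient -/
noncomputable def Nc {k : Type} [Field k] [NumberField k] (f : Ideal (𝓞 k))
    (m₁ m₂ : Finset (PrI k)) (e A : Ideal (𝓞 k)) (b : 𝓞 k) : ℝ :=
  ∏ P ∈ m₁ ∪ m₂,
    (if P ∈ m₁ ∧ P ∈ m₂ then
      ((if P.1 ^ 2 ∣ A then 1 else 0) +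
        (if P.1 ∣ A ∧ P.1 ∣ e then (nr f P.1 (dvi A P.1) b 0 : ℝ) else 0) +
        (if P.1 ∣ e then 1 else 0) + (if P.1 ^ 2 ∣ e then 1 else 0) : ℝ)
    else ((if P.1 ∣ A then 1 else 0) + (if P.1 ∣ e then 1 else 0) : ℝ))

open Classical in
/-- (LC) the average of the local weights over the last coefficient (part L). -/
def T_LC : Prop :=
  ∀ (f q : Ideal (𝓞 k)) (m₁ m₂ : Finset (PrI k)) (e A : Ideal (𝓞 k)) (b : 𝓞 k)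
    (w : 𝓞 k → ℝ), f ≠ ⊥ → q ≠ ⊥ → e ≠ ⊥ → A ≠ ⊥ → (∀ P ∈ m₁ ∪ m₂, ¬ P.1 ∣ q) → b ∈ f →
    (∀ c ∈ A * f ^ 2, ∀ x ∈ q * (A * f ^ 2), w (c + x) = w c) →
    (∀ c ∈ A * f ^ 2, ∀ x ∈ (q * e) * (A * f ^ 2),
      w (c + x) * Nw f m₁ m₂ e A b (c + x) = w c * Nw f m₁ m₂ e A b c) ∧
    (∑ c ∈ (Rs ((q * e) * (A * f ^ 2))).filter (fun c => c ∈ A * f ^ 2),
      w c * Nw f m₁ m₂ e A b c) / nm e =
      (∑ c ∈ (Rs (q * (A * f ^ 2))).filter (fun c => c ∈ A * f ^ 2), w c) * Nc f m₁ m₂ e A b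

open Classical in
/-- (LB) the average of the local weights over the middle coefficient (part L). -/
def T_LB : Prop :=
  ∀ (f q : Ideal (𝓞 k)) (m₁ m₂ : Finset (PrI k)) (e A : Ideal (𝓞 k)) (w : 𝓞 k → ℝ), f ≠ ⊥ →
    q ≠ ⊥ → e ≠ ⊥ → A ≠ ⊥ → (∀ P ∈ m₁ ∪ m₂, ¬ P.1 ∣ q) →
    (∀ b ∈ f, ∀ x ∈ q * f, w (b + x) = w b) →
    (∀ b ∈ f, ∀ x ∈ ni k 2 * (A * f), w (b + x) = w b) →
    (∀ b ∈ f, ∀ x ∈ ni k 2 * (A * f),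
      w (b + x) * Nc f m₁ m₂ e A (b + x) = w b * Nc f m₁ m₂ e A b) ∧
    (∀ b ∈ f, ∀ x ∈ (q * idS (m₁ ∩ m₂)) * f,
      w (b + x) * Nc f m₁ m₂ e A (b + x) = w b * Nc f m₁ m₂ e A b) ∧
    (∑ b ∈ (Rs (ni k 2 * (A * f))).filter (fun b => b ∈ f), w b * Nc f m₁ m₂ e A b) /
        (2 ^ dg k * nm A) =
      (∑ b ∈ (Rs (q * f)).filter (fun b => b ∈ f), w b) / nm q * Nb m₁ m₂ e A

/-- (NWB) bounds of the local weights. -/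
def T_NWB : Prop :=
  ∀ (f : Ideal (𝓞 k)) (m₁ m₂ : Finset (PrI k)) (e A : Ideal (𝓞 k)) (b c : 𝓞 k), f ≠ ⊥ →
    A ≠ ⊥ → (Nw f m₁ m₂ e A b c : ℝ) ≤ (nS m₁ * nS m₂) ^ 4 ∧
    0 ≤ Nb m₁ m₂ e A ∧ Nb m₁ m₂ e A ≤ (nS m₁ * nS m₂) ^ 4

open Classical in
/-- (WTB) the average of an admissible weight over the last coefficient. -/
def T_WTB : Prop :=
  ∀ (f q : Ideal (𝓞 k)) (K : ℝ) (w : WW k) (e A : Ideal (𝓞 k)), f ≠ ⊥ → q ≠ ⊥ → A ≠ ⊥ →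
    WD f q K w →
    (∀ b ∈ f, ∀ x ∈ q * f,
      ∑ c ∈ (Rs (q * (A * f ^ 2))).filter (fun c => c ∈ A * f ^ 2), w e A (b + x) c =
        ∑ c ∈ (Rs (q * (A * f ^ 2))).filter (fun c => c ∈ A * f ^ 2), w e A b c) ∧
    (∀ b ∈ f, ∀ x ∈ ni k 2 * (A * f),
      ∑ c ∈ (Rs (q * (A * f ^ 2))).filter (fun c => c ∈ A * f ^ 2), w e A (b + x) c =
        ∑ c ∈ (Rs (q * (A * f ^ 2))).filter (fun c => c ∈ A * f ^ 2), w e A b c) ∧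
    |wbar f q w e A| ≤ K

/-- the term for fixed `D`, `e`, `A` -/
noncomputable def Tm {k : Type} [Field k] [NumberField k] [IsTotallyReal k]
    (f : Ideal (𝓞 k)) (G : (Pl k → ℝ) → ℝ) (T n : ℝ) (m₁ m₂ : Finset (PrI k)) (w : WW k)
    (e A : Ideal (𝓞 k)) (D : 𝓞 k) : ℝ :=
  G (fun v => em D v / T) * ∑ b ∈ bs f A D,
    wt f (n * nS m₁ * nS m₂) e A (em D) * w e A b (q4 (b ^ 2 + D)) *
      Nw f m₁ m₂ e A b (q4 (b ^ 2 + D)) * zf A f (em b) (em D)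

/-- the density for fixed `e`, `A` -/
noncomputable def Dm {k : Type} [Field k] [NumberField k] [IsTotallyReal k]
    (f q : Ideal (𝓞 k)) (G : (Pl k → ℝ) → ℝ) (T n : ℝ) (m₁ m₂ : Finset (PrI k)) (w : WW k)
    (e A : Ideal (𝓞 k)) (d : Pl k → ℝ) : ℝ :=
  G (fun v => d v / T) * (wt f (n * nS m₁ * nS m₂) e A d * wbar f q w e A *
    Nb m₁ m₂ e A * ct A f d)

/-- (INN) the sum over the discriminants for fixed `e`, `A` in the main range. -/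
def T_INN : Prop :=
  ∀ (f q : Ideal (𝓞 k)) (G : (Pl k → ℝ) → ℝ) (η : ℝ), f ≠ ⊥ → q ≠ ⊥ → GW η G →
  ∀ n K δ : ℝ, 1 ≤ n → 0 < δ → δ ≤ 1 / 100 →
    ∃ T₀ : ℝ, ∀ T : ℝ, T₀ ≤ T → ∀ (m₁ m₂ : Finset (PrI k)) (w : WW k) (e A : Ideal (𝓞 k)),
      WD f q K w → (∀ P ∈ m₁ ∪ m₂, ¬ P.1 ∣ q) →
      nS m₁ ≤ T ^ (dg k * (1 / 4 - δ)) → nS m₂ ≤ T ^ (dg k * (1 / 4 - δ)) → e ≠ ⊥ → A ≠ ⊥ →
      nm (e ^ 2 * A) ≤ n * nS m₁ * nS m₂ * T ^ (dg k * (1 / 2 + δ / 2)) →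
      |(∑' D : 𝓞 k, Tm f G T n m₁ m₂ w e A D) -
        kf f / 2 ^ dg k * ∫ d, Dm f q G T n m₁ m₂ w e A d| ≤ T ^ (-(10 * dg k : ℝ))

/-- (TAD) bounds for the terms. -/
def T_TAD : Prop :=
  ∀ (f q : Ideal (𝓞 k)) (G : (Pl k → ℝ) → ℝ) (η : ℝ), f ≠ ⊥ → q ≠ ⊥ → GW η G →
  ∀ n K : ℝ, 1 ≤ n → ∃ j : ℕ, ∀ B : ℕ, ∃ C : ℝ, 0 < C ∧
    ∀ (T : ℝ) (m₁ m₂ : Finset (PrI k)) (w : WW k) (e A : Ideal (𝓞 k)), 1 ≤ T →
      WD f q K w → nS m₁ ≤ T ^ dg k → nS m₂ ≤ T ^ dg k → e ≠ ⊥ → A ≠ ⊥ →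
      (∀ D : 𝓞 k, |Tm f G T n m₁ m₂ w e A D| ≤ C * (T * nm e * nm A) ^ j *
        (1 + nm (e ^ 2 * A) / (n * nS m₁ * nS m₂ * T ^ ((dg k : ℝ) / 2))) ^ (-(B : ℝ))) ∧
      ∀ d : Pl k → ℝ, |Dm f q G T n m₁ m₂ w e A d| ≤ C * (T * nm e * nm A) ^ j *
        (1 + nm (e ^ 2 * A) / (n * nS m₁ * nS m₂ * T ^ ((dg k : ℝ) / 2))) ^ (-(B : ℝ))

/-- (CTM) the densities are measurable and vanish outside a box; number of discriminants. -/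
def T_CTM : Prop :=
  ∀ (f q : Ideal (𝓞 k)) (G : (Pl k → ℝ) → ℝ) (η : ℝ), f ≠ ⊥ → GW η G →
    ∃ C : ℝ, 0 < C ∧ ∀ T : ℝ, 1 ≤ T →
      (∃ s : Finset (𝓞 k), (s.card : ℝ) ≤ C * T ^ dg k ∧
        ∀ D, D ∉ s → G (fun v => em D v / T) = 0) ∧
      (∃ S : Set (Pl k → ℝ), MeasurableSet S ∧ volume.real S ≤ C * T ^ dg k ∧
        volume S ≠ ⊤ ∧ ∀ d, d ∉ S → G (fun v => d v / T) = 0) ∧
      ∀ (n : ℝ) (m₁ m₂ : Finset (PrI k)) (w : WW k) (e A : Ideal (𝓞 k)), 1 ≤ n → e ≠ ⊥ →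
        A ≠ ⊥ → Measurable (fun d => Dm f q G T n m₁ m₂ w e A d)

/-- (ISM) the sum over the ideals. -/
def T_ISM : Prop :=
  Summable (fun x : Ideal (𝓞 k) × Ideal (𝓞 k) => (nm x.1 ^ 2)⁻¹ * (nm x.2 ^ 2)⁻¹)

/-- (XCH) the sums over the pairs of ideals. -/
def T_XCH : Prop :=
  ∀ (f q : Ideal (𝓞 k)) (G : (Pl k → ℝ) → ℝ) (η : ℝ), f ≠ ⊥ → q ≠ ⊥ → GW η G →
  ∀ n K : ℝ, 1 ≤ n → ∀ (T : ℝ) (m₁ m₂ : Finset (PrI k)) (w : WW k), 1 ≤ T → WD f q K w →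
    nS m₁ ≤ T ^ dg k → nS m₂ ≤ T ^ dg k →
    Summable (fun x : Ideal (𝓞 k) × Ideal (𝓞 k) => (∑' D : 𝓞 k, Tm f G T n m₁ m₂ w x.1 x.2 D) -
        kf f / 2 ^ dg k * ∫ d, Dm f q G T n m₁ m₂ w x.1 x.2 d) ∧
    (∑' D : 𝓞 k, G (fun v => em D v / T) *
        US f D (fun e A b c => wt f (n * nS m₁ * nS m₂) e A (em D) * w e A b c *
          Nw f m₁ m₂ e A b c) (fun A b _ => zf A f (em b) (em D))) -
        kf f / 2 ^ dg k * ∫ d : Pl k → ℝ, G (fun v => d v / T) * Mn f q n m₁ m₂ w d =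
      ∑' x : Ideal (𝓞 k) × Ideal (𝓞 k), ((∑' D : 𝓞 k, Tm f G T n m₁ m₂ w x.1 x.2 D) -
        kf f / 2 ^ dg k * ∫ d, Dm f q G T n m₁ m₂ w x.1 x.2 d)

/-- (AVS) the average, from the terms. -/
def T_AVS : Prop :=
  T_INN k → T_TAD k → T_CTM k → T_ISM k → T_XCH k → Pool.Agent.H89.NV.T_AVG k

/-- (AFS) the average for the first moment. -/
def T_AFS : Prop :=
  T_EMS k → T_RSF k → T_GAV k → T_DRV k → T_WTB k → Pool.Agent.H89.NV.T_AFM k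

/-! ### Group 3 -/

/-- (PSQ) the sum over the primes. -/
def T_PSQ : Prop :=
  Summable (fun P : PrI k => (np P ^ 2)⁻¹) ∧ (∀ (R : ℝ) (P : PrI k), P ∈ PM k R ↔ np P ≤ R) ∧
    ∀ ε : ℝ, 0 < ε → ∃ R₀ : ℝ, ∀ R : ℝ, R₀ ≤ R → ∀ s : Finset (PrI k),
      (∀ P ∈ s, P ∉ PM k R) → ∑ P ∈ s, (np P ^ 2)⁻¹ ≤ ε

/-! ### Group 4 -/

/-- the coordinates are comparable -/
def bal {k : Type} [Field k] [NumberField k] (R : ℝ) (u : Pl k → ℝ) : Prop :=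
  ∀ v w, u v ≤ R * u w

/-- (UCO) balancing with squares of units, and finiteness. -/
def T_UCO : Prop :=
  (∃ R : ℝ, 1 ≤ R ∧ ∀ u : Pl k → ℝ, (∀ v, 0 < u v) → ∃ ε : (𝓞 k)ˣ,
    bal R (fun v => em ((ε : 𝓞 k) ^ 2) v * u v)) ∧
  ∀ R : ℝ, 1 ≤ R → ∃ F : Finset (𝓞 k), ∀ (u : Pl k → ℝ) (ε : (𝓞 k)ˣ), (∀ v, 0 < u v) →
    bal R u → bal R (fun v => em ((ε : 𝓞 k) ^ 2) v * u v) → (ε : 𝓞 k) ^ 2 ∈ F

open Classical in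
/-- the bump function -/
noncomputable def thb {k : Type} [Field k] [NumberField k] (R : ℝ) (u : Pl k → ℝ) : ℝ :=
  if ∀ v, 0 < u v then ∏ v, ∏ w, Real.smoothTransition (2 - u v / (R * u w)) else 0

/-- (PU0) the bump function. -/
def T_PU0 : Prop :=
  ∀ R : ℝ, 1 ≤ R → (∀ u : Pl k → ℝ, 0 ≤ thb R u ∧ thb R u ≤ 1) ∧
    (∀ u : Pl k → ℝ, (∀ v, 0 < u v) → bal R u → thb R u = 1) ∧
    (∀ u : Pl k → ℝ, thb R u ≠ 0 → (∀ v, 0 < u v) ∧ bal (2 * R) u) ∧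
    (∀ (u : Pl k → ℝ) (t : ℝ), 0 < t → thb R (fun v => t * u v) = thb R u) ∧
    ContDiffOn ℝ (⊤ : ℕ∞) (thb (k := k) R) {u | ∀ v, 0 < u v} ∧
    ∀ α : ℝ, 0 < α → ∃ η : ℝ, 0 < η ∧ ∀ u : Pl k → ℝ, (∀ v, 0 < u v) → bal (2 * R) u →
      (∏ v, u v) ∈ Icc α (1 / α) → ∀ v, u v ∈ Icc η (1 / η)

end

end Pool.Agent.H65.NV
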