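import Pool.Agent.H36.NVK.ANF
import Pool.Agent.H32.NVK.CHD
import Pool.Agent.H57.NVK.FDN
import Pool.Agent.H60.NVK.FMD
import Pool.Agent.H99.NVK.FMZ
import Pool.Agent.H50.NVK.FRA
import Pool.Agent.H40.NVK.FRB
import Pool.Agent.H50.NVK.GLF
import Pool.Agent.H32.NVK.GOD
import Pool.Agent.H20.NVK.LB
import Pool.Agent.H4.NVK.LC
import Pool.Agent.H42.NVK.LOC
import Pool.Agent.H13.NVK.LOP
import Pool.Agent.H42.NVK.LT
import Pool.Agent.H21.NVK.LTO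
import Pool.Agent.H24.NVK.MIA
import Pool.Agent.H57.NVK.MIP
import Pool.Agent.H32.NVK.MIS
import Pool.Agent.H72.NVK.MPD
import Pool.Agent.H1.NVK.MPW
import Pool.Agent.H31.NVK.NEL
import Pool.Agent.H58.NVK.NRA
import Pool.Agent.H1.NVK.NRC
import Pool.Agent.H32.NVK.NRI
import Pool.Agent.H2.NVK.NRM
import Pool.Agent.H60.NVK.SDS
import Pool.Agent.H99.NVK.UFC
import Pool.Agent.H63.NVK.WDN
import Pool.Agent.H49.NVK.WLP
import Pool.Agent.H81.NVK.ZFP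
import Pool.Agent.H65.NV.PTargets

/-!
# Local weights: assembly of the part L
-/

set_option autoImplicit false

open NumberField
open Pool.Agent.H65.CM4 Pool.Agent.H61.NVK Pool.Agent.H89.NV Pool.Agent.H91.NV

namespace Pool.Agent.H65.NV

variable (k : Type) [Field k] [NumberField k] [IsTotallyReal k]

/-- the results of part L -/
structure ResL : Prop where
  wdn : T_WDN k
  nel : T_NEL k
  ufc : T_UFC k
  fmc : T_FMC k
  lc : Pool.Agent.H65.NV.T_LC k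
  lb : Pool.Agent.H65.NV.T_LB k
  fdn : T_FDN k

/-- the form of LC used in part P -/
theorem conv_LC (hIDL : T_IDL k) (h : Pool.Agent.H91.NV.T_LC k) :
    Pool.Agent.H65.NV.T_LC k := by
  intro f q m₁ m₂ e A b w hf hq he hA hP hb hw
  obtain ⟨-, -, -, hmul, hone, -⟩ := hIDL
  obtain ⟨h1, h2⟩ := h f q e A m₁ m₂ b w hf hq he hA hb hP hw
  refine ⟨h1, ?_⟩
  have hnq : nm q ≠ 0 := by have := hone q hq; linarith
  have hne : nm e ≠ 0 := by have := hone e he; linarith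
  unfold mI at h2
  rw [hmul] at h2
  have h3 : Nc f m₁ m₂ e A b = Ncb f m₁ m₂ e A b := rfl
  rw [h3]
  field_simp at h2 ⊢
  linarith

/-- the form of LB used in part P -/
theorem conv_LB (hEMS : T_EMS k) (hIDL : T_IDL k) (h : Pool.Agent.H91.NV.T_LB k) :
    Pool.Agent.H65.NV.T_LB k := by
  intro f q m₁ m₂ e A w hf hq he hA hP hw1 hw2
  obtain ⟨-, -, -, hmul, hone, -⟩ := hIDL
  have hni : nm (ni k 2) = 2 ^ dg k := by
    obtain ⟨-, -, -, -, -, -, -, -, h0, -⟩ := hEMS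
    have h := h0 2
    rw [h]; norm_num
  have e1 : (ni k 2 * A) * f = ni k 2 * (A * f) := mul_assoc _ _ _
  obtain ⟨h1, h2, h3⟩ := h f q e A m₁ m₂ w hf hq he hA hP hw1
    (fun x hx y hy => hw2 x hx y (by rw [← e1]; exact hy))
  refine ⟨fun b hb x hx => h1 b hb x (by rw [e1]; exact hx), h2, ?_⟩
  have h4 : ∀ b, Nc f m₁ m₂ e A b = Ncb f m₁ m₂ e A b := fun b => rfl
  unfold mI at h3
  rw [e1, hmul, hni] at h3
  simp only [h4]
  rw [div_eq_mul_one_div, mul_comm, h3]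
  ring

/-- part L -/
theorem partL (hZPR : T_ZPR) (hRSB : T_RSB k) (hIDL : T_IDL k) (hBMD : T_BMD k)
    (hTRV : Pool.Agent.H89.NV.T_TRV k) (hFIB : T_FIB k) (hPZ1 : T_PZ1 k) (hEMS : T_EMS k) :
    ResL k := by
  have hMIA : T_MIA k := Pool.Agent.H24.NVK.pf_MIA k hRSB
  have hMIP : T_MIP k := Pool.Agent.H57.NVK.pf_MIP k hRSB hMIA
  have hMIS : T_MIS k := Pool.Agent.H32.NVK.pf_MIS k hRSB
  have hMPW : T_MPW k := Pool.Agent.H1.NVK_MPW.pf_MPW k hMIA hMIP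
  have hMPD : T_MPD k := Pool.Agent.H72.NVK.pf_MPD k hMIA hMPW
  have hNRI : T_NRI k := Pool.Agent.H32.NVK.pf_NRI k hRSB
  have hNRC : T_NRC k := Pool.Agent.H1.NVK_NRC.pf_NRC k hRSB
  have hGOD : T_GOD k := Pool.Agent.H32.NVK.pf_GOD k hBMD
  have hCHD : T_CHD k := Pool.Agent.H32.NVK.pf_CHD k hBMD hNRI
  have hNRM : T_NRM k := Pool.Agent.H2.NVK.pf_NRM k hRSB hIDL hGOD hNRI
  have hNRA : T_NRA k := Pool.Agent.H58.NVK.pf_NRA k hRSB hIDL hNRI hMIS hNRM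
  have hLTO : T_LTO k := Pool.Agent.H21.NVK.pf_LTO k hRSB Pool.Agent.H50.NVK.pf_FRA
    Pool.Agent.H40.NVK.pf_FRB
  have hLT : T_LT k := Pool.Agent.H42.NVK.pf_LT k hIDL hGOD hNRI hMIA hMIS hNRM hLTO
  have hLOC : T_LOC k := Pool.Agent.H42.NVK.pf_LOC k hLT
  have hWLP : T_WLP k := Pool.Agent.H49.NVK_WLP.pf_WLP k hNRI hGOD hIDL
  have hWDN : T_WDN k := Pool.Agent.H63.NVK_WDN.pf_WDN k hNRI hGOD hIDL
  have hLOP : T_LOP k := Pool.Agent.H13.NVK.pf_LOP k hWLP hMPD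
  have hNEL : T_NEL k := Pool.Agent.H31.NVK.pf_NEL k hLOC Pool.Agent.H50.NVK.pf_GLF hLOP hIDL
  have hFMD : T_FMD k := Pool.Agent.H60.NVK.pf_FMD k hLOC hLOP
  have hANF : T_ANF k := Pool.Agent.H36.NVK.pf_ANF k hCHD hTRV
  have hSDS : T_SDS k := Pool.Agent.H60.NVK.pf_SDS k
  have hZFP : T_ZFP k := Pool.Agent.H81.NVK.pf_ZFP k hZPR
  have hFMZ : T_FMZ k := Pool.Agent.H99.NVKF.pf_FMZ k hPZ1 hRSB hIDL hBMD hTRV hFIB hANF hSDS hZFP
  have hUFC : T_UFC k := Pool.Agent.H99.NVK.pf_UFC k hANF hSDS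
  refine ⟨hWDN, hNEL, hUFC, ?_, conv_LC k hIDL (Pool.Agent.H4.NVK.pf_LC hMIA hMPW hNRI hNRC
    hNRA hIDL), conv_LB k hEMS hIDL (Pool.Agent.H20.NVK.pf_LB k hMIA hMPW hNRA),
    Pool.Agent.H57.NVK.pf_FDN k⟩
  intro f R hf _
  exact ⟨(hFMD f R hf).1, (hFMD f R hf).2, hFMZ f R hf⟩

end Pool.Agent.H65.NV
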